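import Pool.Agent.Helper87.LZ.CaseB

/-!
# Half twists and nondecreasing runs: the case of small `|t|`

The half twist `T_n T_(n-1) ... T_1` is minus the flip `F L j = t ^ j L (n - j)`. If `|t| ^ n ≤ 3/10`
then a product of half twists and nondecreasing runs, at most one run between two half twists, has
no fixed vector.
-/

set_option autoImplicit false

namespace Pool.Agent.Helper60.LZ

open Pool.Agent.Helper87.LZ

variable {t : ℂ} {n : ℕ}

/-- the flip -/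
def F (t : ℂ) (n : ℕ) (L : ℕ → ℂ) : ℕ → ℂ := fun j => t ^ j * L (n - j)

/-- the half twist: `n, n - 1, ..., 1` -/
def dl (n : ℕ) : List ℕ := (List.range n).map fun i => n - i

theorem act_down {L : ℕ → ℂ} (h0 : L 0 = 0) (hn : L n = 0) : ∀ k ≤ n, ∀ j ≤ n,
    act t ((List.range k).map fun i => n - i) L j =
      if j + k ≤ n then L (j + k) - t ^ j * L k else -(t ^ j * L (n - j)) := by
  intro k
  induction k with
  | zero =>
    intro _ j hj
    rw [if_pos (by omega)]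
    simp [h0]
  | succ k ih =>
    intro hk j hj
    have hk' := ih (by omega)
    rw [List.range_succ, List.map_append, act_append]
    simp only [List.map_cons, List.map_nil, act_cons, act_nil]
    unfold T
    by_cases h1 : j < n - k
    · rw [if_pos h1, hk' (j + 1) (by omega), hk' 1 (by omega), if_pos (by omega),
        if_pos (by omega), if_pos (by omega)]
      have e1 : j + 1 + k = j + (k + 1) := by ring
      have e2 : 1 + k = k + 1 := by ring
      rw [e1, e2]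
      ring
    · rw [if_neg h1, hk' j hj]
      by_cases h2 : j + k ≤ n
      · have h3 : j + k = n := by omega
        have h4 : n - j = k := by omega
        rw [if_pos h2, if_neg (by omega), h3, hn, h4]
        ring
      · rw [if_neg h2, if_neg (by omega)]

theorem act_dl {L : ℕ → ℂ} (h0 : L 0 = 0) (hn : L n = 0) (j : ℕ) (hj : j ≤ n) :
    act t (dl n) L j = -F t n L j := by
  unfold dl F
  rw [act_down h0 hn n le_rfl j hj]
  split_ifs with h
  · have : j = 0 := by omega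
    subst this
    simp [hn]
  · rfl

theorem g_F (L : ℕ → ℂ) (j : ℕ) :
    g t (F t n L) j = t ^ (j + 1) * (L (n - (j + 1)) - L (n - j)) := by
  unfold g F
  ring

theorem g_F_T {L : ℕ → ℂ} {r j : ℕ} (hr1 : 1 ≤ r) (hrn : r ≤ n) (hj : j < n) :
    g t (F t n (T t r L)) j =
      if n < j + r then t * g t (F t n L) (j - 1) - t ^ n * (1 - t) * L 1
      else if j + r = n then -(t ^ n * L 1) else g t (F t n L) j := by
  rw [g_F]
  unfold T
  split_ifs with h1 h2 h3 h4 h5 h6 h7 h8 h9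
  all_goals first | omega | skip
  · rw [g_F]
    have e1 : j - 1 + 1 = j := by omega
    have e2 : n - (j - 1) = n - j + 1 := by omega
    have e3 : n - (j + 1) + 1 = n - j := by omega
    have e4 : t ^ n = t ^ (j + 1) * t ^ (n - (j + 1)) := by
      rw [← pow_add]
      congr 1
      omega
    have e5 : t ^ (n - j) = t ^ (n - (j + 1)) * t := by
      rw [← pow_succ]
      congr 1
      omega
    have e6 : t ^ (j + 1) = t ^ j * t := pow_succ _ _
    rw [e1, e2, e3, e4, e5, e6]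
    ring
  · have e1 : n - (j + 1) + 1 = n - j := by omega
    have e4 : t ^ n = t ^ (j + 1) * t ^ (n - (j + 1)) := by
      rw [← pow_add]
      congr 1
      omega
    rw [e1, e4]
    ring
  · rw [g_F]

/-- the bound for the flipped vector, one step -/
theorem step_F {K : ℝ} {L M : ℕ → ℂ} {b r : ℕ} (h : Inv t n K L M b) (ht : ‖t‖ < 1)
    (hκ : ‖1 - t‖ ≤ 2 * (1 - ‖t‖)) (hn1 : 1 ≤ n)
    (hF : ∀ j < n, ‖g t (F t n M) j‖ ≤ ‖t‖ ^ n * K * (2 - ‖t‖ ^ j)) (hr1 : 1 ≤ r) (hrn : r ≤ n) :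
    ∀ j < n, ‖g t (F t n (T t r M)) j‖ ≤ ‖t‖ ^ n * K * (2 - ‖t‖ ^ j) := by
  intro j hj
  have e1 : M 1 = g t M 0 := by unfold g; rw [h.zero]; ring
  have b1 : ‖M 1‖ ≤ K := by rw [e1]; exact h.bd 0 (by omega)
  have hK : 0 ≤ K := (norm_nonneg _).trans b1
  have hP : 0 ≤ ‖t‖ ^ n := by positivity
  have ht0 := norm_nonneg t
  have hj1 : ‖t‖ ^ j ≤ 1 := pow_le_one₀ ht0 ht.le
  rw [g_F_T hr1 hrn hj]
  split_ifs with h1 h2
  · have hj0 : j ≠ 0 := by omega
    have c1 := hF (j - 1) (by omega)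
    have e2 : ‖t‖ ^ j = ‖t‖ * ‖t‖ ^ (j - 1) := by
      rw [← pow_succ']
      congr 1
      omega
    calc ‖t * g t (F t n M) (j - 1) - t ^ n * (1 - t) * M 1‖
        ≤ ‖t * g t (F t n M) (j - 1)‖ + ‖t ^ n * (1 - t) * M 1‖ := norm_sub_le _ _
      _ = ‖t‖ * ‖g t (F t n M) (j - 1)‖ + ‖t‖ ^ n * ‖1 - t‖ * ‖M 1‖ := by
          rw [norm_mul, norm_mul, norm_mul, norm_pow]
      _ ≤ ‖t‖ * (‖t‖ ^ n * K * (2 - ‖t‖ ^ (j - 1))) + ‖t‖ ^ n * (2 * (1 - ‖t‖)) * K := by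
          refine add_le_add (mul_le_mul_of_nonneg_left c1 ht0) ?_
          refine mul_le_mul ?_ b1 (norm_nonneg _) ?_
          · exact mul_le_mul_of_nonneg_left hκ hP
          · have : 0 ≤ 1 - ‖t‖ := by linarith
            positivity
      _ = _ := by rw [e2]; ring
  · rw [norm_neg, norm_mul, norm_pow]
    calc ‖t‖ ^ n * ‖M 1‖ ≤ ‖t‖ ^ n * K := mul_le_mul_of_nonneg_left b1 hP
      _ ≤ ‖t‖ ^ n * K * (2 - ‖t‖ ^ j) := by
          have : 0 ≤ ‖t‖ ^ n * K := by positivity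
          nlinarith
  · exact hF j hj

theorem run_F {K N : ℝ} {L : ℕ → ℂ} (ht : ‖t‖ < 1)
    (hκ : ‖1 - t‖ ≤ 2 * (1 - ‖t‖)) (hn1 : 1 ≤ n) (hK : 2 * N ≤ K) (h0 : L 0 = 0)
    (hg : ∀ j < n, ‖g t L j‖ ≤ N) : ∀ (l : List ℕ) (M : ℕ → ℂ) (b : ℕ), Inv t n K L M b →
    (∀ j < n, ‖g t (F t n M) j‖ ≤ ‖t‖ ^ n * K * (2 - ‖t‖ ^ j)) →
    l.Pairwise (· ≤ ·) → (∀ r ∈ l, b ≤ r ∧ 1 ≤ r ∧ r ≤ n) → b ≤ n →
    ∃ b', b' ≤ n ∧ Inv t n K L (act t l M) b' ∧
      ∀ j < n, ‖g t (F t n (act t l M)) j‖ ≤ ‖t‖ ^ n * K * (2 - ‖t‖ ^ j) := by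
  intro l
  induction l with
  | nil => intro M b h hF _ _ hb; exact ⟨b, hb, h, hF⟩
  | cons r l ih =>
    intro M b h hF hp hl hb
    obtain ⟨h1, h2, h3⟩ := hl r (by simp)
    rw [List.pairwise_cons] at hp
    refine ih (T t r M) r (h.step ht hκ hK h0 hg h1 h2 h3)
      (step_F h ht hκ hn1 hF h2 h3) hp.2 ?_ h3
    intro x hx
    exact ⟨hp.1 x hx, (hl x (by simp [hx])).2⟩

/-- the second bound for the flipped vector -/
theorem g_F_le {K : ℝ} {X : ℕ → ℂ} (ht : ‖t‖ < 1) (hκ : ‖1 - t‖ ≤ 2 * (1 - ‖t‖)) (h0 : X 0 = 0)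
    (hg : ∀ j < n, ‖g t X j‖ ≤ K) {j : ℕ} (hj : j < n) :
    ‖g t (F t n X) j‖ ≤ K * (3 * ‖t‖ ^ j - 2 * ‖t‖ ^ n) := by
  have ht0 := norm_nonneg t
  have hK : 0 ≤ K := (norm_nonneg _).trans (hg 0 (by omega))
  rw [g_F]
  have e : X (n - (j + 1)) - X (n - j) = -(g t X (n - (j + 1)) - (1 - t) * X (n - (j + 1))) := by
    unfold g
    have : n - (j + 1) + 1 = n - j := by omega
    rw [this]
    ring
  have b1 := norm_le (n := n) h0 K ht hg (n - (j + 1)) (by omega)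
  have b2 : ‖(1 - t) * X (n - (j + 1))‖ ≤ 2 * (K * (1 - ‖t‖ ^ (n - (j + 1)))) := by
    rw [norm_mul]
    calc ‖1 - t‖ * ‖X (n - (j + 1))‖ ≤ 2 * (1 - ‖t‖) * ‖X (n - (j + 1))‖ :=
          mul_le_mul_of_nonneg_right hκ (norm_nonneg _)
      _ = 2 * ((1 - ‖t‖) * ‖X (n - (j + 1))‖) := by ring
      _ ≤ _ := mul_le_mul_of_nonneg_left b1 (by norm_num)
  have b3 := hg (n - (j + 1)) (by omega)
  have b4 : ‖X (n - (j + 1)) - X (n - j)‖ ≤ K * (3 - 2 * ‖t‖ ^ (n - (j + 1))) := by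
    rw [e, norm_neg]
    refine (norm_sub_le _ _).trans ?_
    linarith
  rw [norm_mul, norm_pow]
  have e4 : ‖t‖ ^ n = ‖t‖ ^ (j + 1) * ‖t‖ ^ (n - (j + 1)) := by
    rw [← pow_add]
    congr 1
    omega
  have e5 : ‖t‖ ^ (j + 1) ≤ ‖t‖ ^ j := pow_le_pow_of_le_one ht0 ht.le (by omega)
  calc ‖t‖ ^ (j + 1) * ‖X (n - (j + 1)) - X (n - j)‖
      ≤ ‖t‖ ^ (j + 1) * (K * (3 - 2 * ‖t‖ ^ (n - (j + 1)))) :=
        mul_le_mul_of_nonneg_left b4 (by positivity)
    _ = K * (3 * ‖t‖ ^ (j + 1) - 2 * ‖t‖ ^ n) := by rw [e4]; ring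
    _ ≤ K * (3 * ‖t‖ ^ j - 2 * ‖t‖ ^ n) := mul_le_mul_of_nonneg_left (by linarith) hK

/-- the numerical inequality -/
theorem min_le {P q M : ℝ} (hM : 0 ≤ M) (hP0 : 0 ≤ P) (hP : P ≤ 3 / 10) {x : ℝ}
    (h1 : x ≤ P * (2 * M) * (2 - q)) (h2 : x ≤ 2 * M * (3 * q - 2 * P)) : x ≤ 99 / 100 * M := by
  rcases le_total q (P * (40 / 33)) with h | h
  · have : 2 * (3 * q - 2 * P) ≤ 99 / 100 := by linarith
    nlinarith
  · have h3 : P * 2 * (2 - q) ≤ 99 / 100 := by nlinarith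
    nlinarith

/-- The state: bounds for the differences of the vector and of its flip. -/
structure Q (t : ℂ) (n : ℕ) (L : ℕ → ℂ) (a b : ℝ) : Prop where
  zero : L 0 = 0
  last : L n = 0
  bd : ∀ j < n, ‖g t L j‖ ≤ a
  bdF : ∀ j < n, ‖g t (F t n L) j‖ ≤ 2 * ‖t‖ ^ n * b

/-- one nondecreasing run and a half twist -/
theorem Q.piece {L : ℕ → ℂ} {a b M : ℝ} (h : Q t n L a b) (ht : ‖t‖ < 1)
    (hκ : ‖1 - t‖ ≤ 2 * (1 - ‖t‖)) (hn1 : 1 ≤ n) (hP : ‖t‖ ^ n ≤ 3 / 10) (ha0 : 0 ≤ a)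
    (ha : a ≤ M) (hb : b ≤ M)
    {l : List ℕ} (hp : l.Pairwise (· ≤ ·)) (hl : ∀ r ∈ l, 1 ≤ r ∧ r ≤ n) :
    Q t n (act t (l ++ dl n) L) (99 / 100 * M) a := by
  have ht0 := norm_nonneg t
  have hM : 0 ≤ M := ha0.trans ha
  have hP0 : 0 ≤ ‖t‖ ^ n := by positivity
  have hI : Inv t n (2 * M) L L 0 := ⟨h.zero, fun _ _ => rfl, fun j hj =>
    (h.bd j hj).trans (by linarith)⟩
  have hI' : Inv t n (2 * a) L L 0 := ⟨h.zero, fun _ _ => rfl, fun j hj =>
    (h.bd j hj).trans (by linarith)⟩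
  have hF0 : ∀ j < n, ‖g t (F t n L) j‖ ≤ ‖t‖ ^ n * (2 * M) * (2 - ‖t‖ ^ j) := by
    intro j hj
    refine (h.bdF j hj).trans ?_
    have hj1 : ‖t‖ ^ j ≤ 1 := pow_le_one₀ ht0 ht.le
    have c1 : 2 * ‖t‖ ^ n * b ≤ ‖t‖ ^ n * (2 * M) := by nlinarith
    have c2 : 0 ≤ ‖t‖ ^ n * (2 * M) := by positivity
    nlinarith
  obtain ⟨b', hb', hI2, hF2⟩ := run_F (N := M) ht hκ hn1 le_rfl h.zero
    (fun j hj => (h.bd j hj).trans ha) l L 0 hI hF0 hp
    (fun r hr => ⟨Nat.zero_le _, hl r hr⟩) (Nat.zero_le _)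
  obtain ⟨b3, hb3, hI3⟩ := Inv.run ht hκ le_rfl h.zero h.bd l L 0 hI' hp
    (fun r hr => ⟨Nat.zero_le _, hl r hr⟩) (Nat.zero_le _)
  set X := act t l L with hX
  have x0 : X 0 = 0 := hI2.zero
  have xn : X n = 0 := (hI2.tail n hb').trans h.last
  have hact : ∀ j ≤ n, act t (l ++ dl n) L j = -F t n X j := by
    intro j hj
    rw [act_append, ← hX]
    exact act_dl x0 xn j hj
  refine ⟨?_, ?_, ?_, ?_⟩
  · rw [hact 0 (Nat.zero_le _)]
    simp [F, xn]
  · rw [hact n le_rfl]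
    simp [F, x0]
  · intro j hj
    have e : g t (act t (l ++ dl n) L) j = -g t (F t n X) j := by
      unfold g
      rw [hact (j + 1) (by omega), hact j (by omega)]
      ring
    rw [e, norm_neg]
    exact min_le hM hP0 hP (hF2 j hj) (g_F_le ht hκ x0 hI2.bd hj)
  · intro j hj
    have hFF : ∀ i ≤ n, F t n (act t (l ++ dl n) L) i = -(t ^ n * X i) := by
      intro i hi
      unfold F
      rw [hact (n - i) (by omega)]
      unfold F
      have e1 : n - (n - i) = i := by omega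
      have e2 : t ^ n = t ^ i * t ^ (n - i) := by
        rw [← pow_add]
        congr 1
        omega
      rw [e1, e2]
      ring
    have e : g t (F t n (act t (l ++ dl n) L)) j = -(t ^ n * g t X j) := by
      unfold g
      rw [hFF (j + 1) (by omega), hFF j (by omega)]
      ring
    rw [e, norm_neg, norm_mul, norm_pow]
    have := mul_le_mul_of_nonneg_left (hI3.bd j hj) hP0
    linarith

/-- the word `A_1 Δ A_2 Δ ... A_k Δ` -/
def wd (n : ℕ) (R : List (List ℕ)) : List ℕ := R.flatMap fun l => l ++ dl n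

theorem Q.mono {L : ℕ → ℂ} {a b a' b' : ℝ} (h : Q t n L a b) (ha : a ≤ a') (hb : b ≤ b') :
    Q t n L a' b' :=
  ⟨h.zero, h.last, fun j hj => (h.bd j hj).trans ha, fun j hj => (h.bdF j hj).trans
    (mul_le_mul_of_nonneg_left hb (by positivity))⟩

theorem Q.chain {M : ℝ} (hM : 0 ≤ M) (ht : ‖t‖ < 1)
    (hκ : ‖1 - t‖ ≤ 2 * (1 - ‖t‖)) (hn1 : 1 ≤ n) (hP : ‖t‖ ^ n ≤ 3 / 10) :
    ∀ (R : List (List ℕ)) (L : ℕ → ℂ), Q t n L (99 / 100 * M) (99 / 100 * M) →
    (∀ l ∈ R, l.Pairwise (· ≤ ·) ∧ ∀ r ∈ l, 1 ≤ r ∧ r ≤ n) →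
    Q t n (act t (wd n R) L) (99 / 100 * M) (99 / 100 * M) := by
  intro R
  induction R with
  | nil => intro L h _; exact h
  | cons l R ih =>
    intro L h hR
    obtain ⟨hp, hl⟩ := hR l (by simp)
    unfold wd
    rw [List.flatMap_cons, act_append]
    refine ih _ ?_ (fun l' hl' => hR l' (by simp [hl']))
    exact h.piece ht hκ hn1 hP (by linarith) (by linarith) (by linarith) hp hl

theorem Q.chain2 {M : ℝ} (hM : 0 ≤ M) (ht : ‖t‖ < 1)
    (hκ : ‖1 - t‖ ≤ 2 * (1 - ‖t‖)) (hn1 : 1 ≤ n) (hP : ‖t‖ ^ n ≤ 3 / 10)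
    (R : List (List ℕ)) (hR2 : 2 ≤ R.length) {L : ℕ → ℂ} (h : Q t n L M M)
    (hR : ∀ l ∈ R, l.Pairwise (· ≤ ·) ∧ ∀ r ∈ l, 1 ≤ r ∧ r ≤ n) :
    Q t n (act t (wd n R) L) (99 / 100 * M) (99 / 100 * M) := by
  obtain ⟨l₁, R, rfl⟩ : ∃ l₁ R', R = l₁ :: R' := by
    cases R with
    | nil => simp at hR2
    | cons a b => exact ⟨a, b, rfl⟩
  obtain ⟨l₂, R, rfl⟩ : ∃ l₁ R', R = l₁ :: R' := by
    cases R with
    | nil => simp at hR2
    | cons a b => exact ⟨a, b, rfl⟩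
  obtain ⟨hp1, hl1⟩ := hR l₁ (by simp)
  obtain ⟨hp2, hl2⟩ := hR l₂ (by simp)
  have h1 := h.piece ht hκ hn1 hP hM le_rfl le_rfl hp1 hl1
  have h2 := h1.piece (M := M) ht hκ hn1 hP (by linarith) (by linarith) le_rfl hp2 hl2
  have h3 := Q.chain hM ht hκ hn1 hP R _ h2 (fun l hl => hR l (by simp [hl]))
  unfold wd at h3 ⊢
  rw [List.flatMap_cons, List.flatMap_cons, act_append, act_append]
  exact h3

/-- **The case of small `|t|`**: no fixed vector. -/
theorem caseB2 (h0t : t ≠ 0) (ht : ‖t‖ < 1) (hκ : ‖1 - t‖ ≤ 2 * (1 - ‖t‖)) (hn1 : 1 ≤ n)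
    (hP : ‖t‖ ^ n ≤ 3 / 10) (R : List (List ℕ)) (hne : R ≠ [])
    (hR : ∀ l ∈ R, l.Pairwise (· ≤ ·) ∧ ∀ r ∈ l, 1 ≤ r ∧ r ≤ n) {L : ℕ → ℂ} (h0 : L 0 = 0)
    (hn : L n = 0) (hfix : act t (wd n R) L = L) : ∀ j ≤ n, L j = 0 := by
  have htp : 0 < ‖t‖ := norm_pos_iff.2 h0t
  have hP0 : 0 < ‖t‖ ^ n := by positivity
  obtain ⟨M, hM, hQ⟩ : ∃ M : ℝ, 0 ≤ M ∧ Q t n L M M := by
    refine ⟨∑ j ∈ Finset.range n, (‖g t L j‖ + ‖g t (F t n L) j‖ / (2 * ‖t‖ ^ n)),
      Finset.sum_nonneg fun j _ => by positivity, h0, hn, fun j hj => ?_, fun j hj => ?_⟩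
    · have := Finset.single_le_sum (f := fun j => ‖g t L j‖ + ‖g t (F t n L) j‖ / (2 * ‖t‖ ^ n))
        (fun j _ => by positivity) (Finset.mem_range.2 hj)
      refine le_trans ?_ this
      have : 0 ≤ ‖g t (F t n L) j‖ / (2 * ‖t‖ ^ n) := by positivity
      linarith
    · have := Finset.single_le_sum (f := fun j => ‖g t L j‖ + ‖g t (F t n L) j‖ / (2 * ‖t‖ ^ n))
        (fun j _ => by positivity) (Finset.mem_range.2 hj)
      have h2 : ‖g t (F t n L) j‖ = 2 * ‖t‖ ^ n * (‖g t (F t n L) j‖ / (2 * ‖t‖ ^ n)) := by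
        field_simp
      rw [h2]
      refine mul_le_mul_of_nonneg_left (le_trans ?_ this) (by positivity)
      have : 0 ≤ ‖g t L j‖ := norm_nonneg _
      linarith
  have hfix2 : act t (wd n (R ++ R)) L = L := by
    unfold wd at hfix ⊢
    rw [List.flatMap_append, act_append, hfix, hfix]
  have hlen : 2 ≤ (R ++ R).length := by
    have := List.length_pos_iff.2 hne
    rw [List.length_append]
    omega
  have key : ∀ k : ℕ, Q t n L ((99 / 100) ^ k * M) ((99 / 100) ^ k * M) := by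
    intro k
    induction k with
    | zero => simpa using hQ
    | succ k ih =>
      have := Q.chain2 (M := (99 / 100) ^ k * M) (by positivity) ht hκ hn1 hP (R ++ R) hlen ih
        (fun l hl => by
          rcases List.mem_append.1 hl with h | h
          · exact hR l h
          · exact hR l h)
      rw [hfix2] at this
      rw [pow_succ']
      rw [mul_assoc]
      exact this
  refine eq_zero_of_g (t := t) (n := n) h0 (fun j hj => ?_)
  have hlim : Filter.Tendsto (fun k : ℕ => ((99 : ℝ) / 100) ^ k * M) Filter.atTop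
      (nhds (0 * M)) :=
    (tendsto_pow_atTop_nhds_zero_of_lt_one (by norm_num) (by norm_num)).mul_const M
  rw [zero_mul] at hlim
  have := ge_of_tendsto' hlim (fun k => (key k).bd j hj)
  exact norm_le_zero_iff.1 this

/-- The same for the word `Δ A_1 Δ A_2 ... Δ A_k` and a vector fixed on `[0, n]`. -/
theorem caseB3 (h0t : t ≠ 0) (ht : ‖t‖ < 1) (hκ : ‖1 - t‖ ≤ 2 * (1 - ‖t‖)) (hn1 : 1 ≤ n)
    (hP : ‖t‖ ^ n ≤ 3 / 10) (R : List (List ℕ)) (hne : R ≠ [])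
    (hR : ∀ l ∈ R, l.Pairwise (· ≤ ·) ∧ ∀ r ∈ l, 1 ≤ r ∧ r ≤ n) {L : ℕ → ℂ} (h0 : L 0 = 0)
    (hn : L n = 0) (hfix : ∀ j ≤ n, act t (R.flatMap fun l => dl n ++ l) L j = L j) :
    ∀ j ≤ n, L j = 0 := by
  have hrot : ∀ R : List (List ℕ), dl n ++ (R.flatMap fun l => l ++ dl n) =
      (R.flatMap fun l => dl n ++ l) ++ dl n := by
    intro R
    induction R with
    | nil => simp
    | cons l R ih =>
      rw [List.flatMap_cons, List.flatMap_cons, List.append_assoc, ih, ← List.append_assoc,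
        ← List.append_assoc]
  have hdl : ∀ r ∈ dl n, 1 ≤ r ∧ r ≤ n := by
    intro r hr
    unfold dl at hr
    obtain ⟨i, hi, rfl⟩ := List.mem_map.1 hr
    have := List.mem_range.1 hi
    omega
  -- the truncated vector
  set L' : ℕ → ℂ := fun j => if j ≤ n then L j else 0 with hL'
  have hLL : ∀ j ≤ n, L' j = L j := fun j hj => if_pos hj
  have hw : ∀ r ∈ R.flatMap fun l => dl n ++ l, r ≤ n := by
    intro r hr
    obtain ⟨l, hl, hr⟩ := List.mem_flatMap.1 hr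
    rcases List.mem_append.1 hr with h | h
    · exact (hdl r h).2
    · exact ((hR l hl).2 r h).2
  have htail : ∀ (l : List ℕ) (X : ℕ → ℂ), (∀ r ∈ l, r ≤ n) → (∀ j, n < j → X j = 0) →
      ∀ j, n < j → act t l X j = 0 := by
    intro l
    induction l with
    | nil => intro X _ hX; exact hX
    | cons r l ih =>
      intro X hl hX
      have hr := hl r (by simp)
      rw [act_cons]
      refine ih (T t r X) (fun x hx => hl x (by simp [hx])) ?_
      intro j hj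
      rw [T_of_le (by omega)]
      exact hX j hj
  have hfix' : act t (R.flatMap fun l => dl n ++ l) L' = L' := by
    funext j
    by_cases hj : j ≤ n
    · rw [act_congr _ L' L hw hn1 hLL j hj, hfix j hj, hLL j hj]
    · have hX : ∀ j, n < j → L' j = 0 := fun j hj => if_neg (by omega)
      rw [htail _ L' hw hX j (by omega), hX j (by omega)]
  have hS : act t (wd n R) (act t (dl n) L') = act t (dl n) L' := by
    unfold wd
    rw [← act_append, hrot, act_append, hfix']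
  have l0 : L' 0 = 0 := (hLL 0 (Nat.zero_le _)).trans h0
  have ln : L' n = 0 := (hLL n le_rfl).trans hn
  have hz := caseB2 h0t ht hκ hn1 hP R hne hR (L := act t (dl n) L') (by
      rw [act_dl l0 ln 0 (Nat.zero_le _)]
      simp [F, ln]) (by
      rw [act_dl l0 ln n le_rfl]
      simp [F, l0]) hS
  intro j hj
  have h1 := hz (n - j) (by omega)
  rw [act_dl l0 ln (n - j) (by omega)] at h1
  unfold F at h1
  have e : n - (n - j) = j := by omega
  rw [e, neg_eq_zero, mul_eq_zero] at h1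
  rw [← hLL j hj]
  exact h1.resolve_left (pow_ne_zero _ h0t)

end Pool.Agent.Helper60.LZ
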