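import Mathlib

/-!
# The half twist in a group with braid relations
-/

set_option autoImplicit false

namespace Pool.Agent.Helper60.LZ.Flip

variable {G : Type*} [Group G] {s : ℕ → G} {n : ℕ}

/-- `s_0 s_1 ... s_(r-1)` -/
def A (s : ℕ → G) (r : ℕ) : G := ((List.range r).map s).prod

/-- the half twist on the generators `0, ..., m - 1` -/
def D (s : ℕ → G) : ℕ → G
  | 0 => 1
  | m + 1 => A s (m + 1) * D s m

theorem A_succ (s : ℕ → G) (r : ℕ) : A s (r + 1) = A s r * s r := by
  unfold A
  rw [List.range_succ, List.map_append, List.prod_append]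
  simp

@[simp] theorem A_zero (s : ℕ → G) : A s 0 = 1 := by
  unfold A
  simp

/-- the braid relations for the indices less than `n` -/
structure Rel (s : ℕ → G) (n : ℕ) : Prop where
  braid : ∀ j, j + 1 < n → s j * s (j + 1) * s j = s (j + 1) * s j * s (j + 1)
  comm : ∀ a b, a + 2 ≤ b → b < n → s a * s b = s b * s a

variable (h : Rel s n)

include h

theorem A_comm {r b : ℕ} (hb : r + 1 ≤ b) (hbn : b < n) : A s r * s b = s b * A s r := by
  induction r with
  | zero => simp
  | succ r ih =>
    rw [A_succ, mul_assoc, h.comm r b (by omega) hbn, ← mul_assoc, ih (by omega), mul_assoc]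

theorem A_shift {r i : ℕ} (hi : i + 1 < r) (hr : r ≤ n) : A s r * s i = s (i + 1) * A s r := by
  induction r with
  | zero => omega
  | succ r ih =>
    rw [A_succ]
    by_cases h1 : i + 1 < r
    · rw [mul_assoc, ← h.comm i r (by omega) (by omega), ← mul_assoc, ih h1 (by omega), mul_assoc]
    · obtain rfl : r = i + 1 := by omega
      rw [A_succ, mul_assoc (A s i), mul_assoc (A s i), h.braid i (by omega),
        mul_assoc (s (i + 1)), ← mul_assoc (A s i), A_comm h (by omega) (by omega), mul_assoc]

theorem D_comm {m b : ℕ} (hb : m + 1 ≤ b) (hbn : b < n) : D s m * s b = s b * D s m := by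
  induction m with
  | zero => simp [D]
  | succ m ih =>
    rw [D, mul_assoc, ih (by omega), ← mul_assoc, A_comm h hb hbn, mul_assoc]

theorem A_shift' {m k : ℕ} (hk : k ≤ m) (hm : m + 1 ≤ n) :
    s 0 * (A s (m + 1) * A s k) = A s (k + 1) * A s (m + 1) := by
  induction k with
  | zero => simp [A_succ]
  | succ k ih =>
    rw [A_succ s k, ← mul_assoc (A s (m + 1)), ← mul_assoc (s 0), ih (by omega), mul_assoc,
      A_shift h (by omega) hm, ← mul_assoc, ← A_succ]

/-- the half twist conjugates `s i` to `s (m - 1 - i)` -/
theorem D_flip {m i : ℕ} (hi : i < m) (hm : m ≤ n) : D s m * s i = s (m - 1 - i) * D s m := by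
  induction m with
  | zero => omega
  | succ m ih =>
    by_cases h1 : i < m
    · rw [D, mul_assoc, ih h1 (by omega), ← mul_assoc, A_shift h (by omega) hm, mul_assoc]
      congr 2
      omega
    · obtain rfl : i = m := by omega
      have e : i + 1 - 1 - i = 0 := by omega
      rw [e]
      cases i with
      | zero => simp [D, A_succ]
      | succ i =>
        have e1 : D s (i + 1 + 1) = A s (i + 1 + 1) * (A s (i + 1) * D s i) := rfl
        have e2 := A_shift' h (k := i + 1) (m := i + 1) le_rfl hm
        calc D s (i + 1 + 1) * s (i + 1)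
            = A s (i + 1 + 1) * (A s (i + 1) * (D s i * s (i + 1))) := by
              rw [e1, mul_assoc, mul_assoc]
          _ = A s (i + 1 + 1) * A s (i + 1 + 1) * D s i := by
              rw [D_comm h (by omega) (by omega), ← mul_assoc (A s (i + 1)), ← A_succ,
                ← mul_assoc]
          _ = s 0 * (A s (i + 1 + 1) * A s (i + 1)) * D s i := by rw [e2]
          _ = s 0 * D s (i + 1 + 1) := by rw [e1, mul_assoc, mul_assoc]

/-- the half twist and words -/
theorem D_word {w : List ℕ} (hw : ∀ a ∈ w, a < n) :
    D s n * (w.map s).prod = ((w.map fun a => n - 1 - a).map s).prod * D s n := by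
  induction w with
  | nil => simp
  | cons a w ih =>
    rw [List.map_cons, List.prod_cons, List.map_cons, List.map_cons, List.prod_cons,
      ← mul_assoc, D_flip h (hw a (by simp)) le_rfl, mul_assoc,
      ih (fun b hb => hw b (by simp [hb])), mul_assoc]

/-- alternating products: every second word is flipped -/
def alt (s : ℕ → G) (n : ℕ) : Bool → List (List ℕ) → G
  | _, [] => 1
  | false, w :: R => (w.map s).prod * alt s n true R
  | true, w :: R => ((w.map fun a => n - 1 - a).map s).prod * alt s n false R

theorem alt_flip (b : Bool) (R : List (List ℕ)) (hR : ∀ w ∈ R, ∀ a ∈ w, a < n) :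
    D s n * alt s n b R = alt s n (!b) R * D s n := by
  induction R generalizing b with
  | nil => simp [alt]
  | cons w R ih =>
    have hw := hR w (by simp)
    have ih' := fun b => ih b fun w' hw' => hR w' (by simp [hw'])
    cases b with
    | false =>
      simp only [alt, Bool.not_false]
      rw [← mul_assoc, D_word h hw, mul_assoc, ih' true, mul_assoc]
      rfl
    | true =>
      simp only [alt, Bool.not_true]
      have hw2 : ∀ a ∈ w.map fun a => n - 1 - a, a < n := by
        intro a ha
        obtain ⟨b, hb, rfl⟩ := List.mem_map.1 ha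
        have := hw b hb
        omega
      have e : (w.map fun a => n - 1 - a).map (fun a => n - 1 - a) = w := by
        rw [List.map_map]
        conv_rhs => rw [← List.map_id w]
        refine List.map_congr_left fun a ha => ?_
        have := hw a ha
        simp only [Function.comp, id]
        omega
      have e2 := D_word h hw2
      rw [e] at e2
      rw [← mul_assoc, e2, mul_assoc, ih' false, mul_assoc]
      rfl

/-- `X_1 X_2 ... X_k D ^ k` is `A_1 D A_2 D ... A_k D` -/
theorem alt_mul (R : List (List ℕ)) (hR : ∀ w ∈ R, ∀ a ∈ w, a < n) :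
    alt s n false R * D s n ^ R.length = (R.map fun w => (w.map s).prod * D s n).prod := by
  induction R with
  | nil => simp [alt]
  | cons w R ih =>
    have ih' := ih fun w' hw' => hR w' (by simp [hw'])
    have e := alt_flip h false R fun w' hw' => hR w' (by simp [hw'])
    rw [List.map_cons, List.prod_cons, ← ih', List.length_cons, pow_succ']
    simp only [alt]
    rw [mul_assoc, ← mul_assoc (alt s n true R), ← Bool.not_false, ← e]
    simp only [mul_assoc]

end Pool.Agent.Helper60.LZ.Flip
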