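import Pool.Agent.Helper60.LZ.CaseB2
import Pool.Agent.Helper69.LZ.Words
import Pool.Agent.Helper43.LZ.Wts

/-!
# Half twists and nondecreasing runs have no fixed vector outside of the sector
-/

set_option autoImplicit false

namespace Pool.Agent.Helper60.LZ

open Pool.Agent.Helper87.LZ

variable {t : ℂ} {n : ℕ}

theorem act_tail : ∀ (l : List ℕ) (X : ℕ → ℂ), (∀ r ∈ l, r ≤ n) → (∀ j, n < j → X j = 0) →
    ∀ j, n < j → act t l X j = 0 := by
  intro l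
  induction l with
  | nil => intro X _ hX; exact hX
  | cons r l ih =>
    intro X hl hX
    have hr := hl r (by simp)
    rw [act_cons]
    refine ih (T t r X) (fun x hx => hl x (by simp [hx])) ?_
    intro j hj
    rw [T_of_le (by omega)]
    exact hX j hj

theorem exists_trunc (hn1 : 1 ≤ n) {A : List ℕ} (hA : ∀ r ∈ A, r ≤ n) {L : ℕ → ℂ}
    (hfix : ∀ j ≤ n, act t A L j = L j) :
    ∃ L' : ℕ → ℂ, (∀ j ≤ n, L' j = L j) ∧ act t A L' = L' := by
  refine ⟨fun j => if j ≤ n then L j else 0, fun j hj => if_pos hj, ?_⟩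
  funext j
  by_cases hj : j ≤ n
  · rw [act_congr A _ L hA hn1 (fun j hj => if_pos hj) j hj, hfix j hj, if_pos hj]
  · have hX : ∀ j, n < j → (fun j => if j ≤ n then L j else 0) j = 0 :=
      fun j hj => if_neg (by omega)
    rw [act_tail A _ hA hX j (by omega), if_neg hj]

theorem mem_dl {r : ℕ} : r ∈ dl n ↔ 1 ≤ r ∧ r ≤ n := by
  unfold dl
  rw [List.mem_map]
  constructor
  · rintro ⟨i, hi, rfl⟩
    rw [List.mem_range] at hi
    omega
  · rintro ⟨h1, h2⟩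
    exact ⟨n - r, by rw [List.mem_range]; omega, by omega⟩

theorem wd_le {R : List (List ℕ)} (hR : ∀ l ∈ R, ∀ r ∈ l, r ≤ n) : ∀ r ∈ wd n R, r ≤ n := by
  intro r hr
  unfold wd at hr
  obtain ⟨l, hl, hr⟩ := List.mem_flatMap.1 hr
  rcases List.mem_append.1 hr with h | h
  · exact hR l hl r h
  · exact (mem_dl.1 h).2

theorem mem_wd (hn1 : 1 ≤ n) {R : List (List ℕ)} (hne : R ≠ []) : n ∈ wd n R := by
  obtain ⟨l, hl⟩ := List.exists_mem_of_ne_nil R hne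
  unfold wd
  exact List.mem_flatMap.2 ⟨l, hl, List.mem_append.2 (Or.inr (mem_dl.2 ⟨hn1, le_rfl⟩))⟩

/-- **Outside of the sector** `A_1 Δ A_2 Δ ... A_k Δ` has no fixed vector. -/
theorem free_wd (hRk : ∀ t : ℂ, t ≠ 0 → ‖t‖ < 1 → ‖1 - t‖ ≤ 2 * (1 - ‖t‖) → ∀ k : ℕ,
      3 / 10 ≤ ‖t‖ ^ (k + 3) → Pool.Agent.Helper43.LZ.Rk t k) (R : List (List ℕ)) (hne : R ≠ [])
    (hR : ∀ l ∈ R, l.Pairwise (· ≤ ·) ∧ ∀ r ∈ l, 1 ≤ r ∧ r ≤ n + 1) :
    Pool.Agent.Helper69.LZ.Free n (Pool.Agent.Helper69.LZ.wd (wd (n + 1) R)) := by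
  have hle : ∀ r ∈ wd (n + 1) R, r ≤ n + 1 := wd_le fun l hl r hr => ((hR l hl).2 r hr).2
  refine Pool.Agent.Helper69.LZ.free_of_act _ ?_
  intro t h0 h1 hk L hL0 hLn hfix
  rcases le_total (3 / 10) (‖t‖ ^ (n + 1)) with hP | hP
  · refine Pool.Agent.Helper43.LZ.no_fixed_R h0 h1 (fun k hkn => hRk t h0 h1 hk k ?_) _ hle
      (Or.inl (mem_wd (by omega) hne)) hL0 hLn hfix
    exact hP.trans (pow_le_pow_of_le_one (norm_nonneg _) h1.le hkn)
  · obtain ⟨L', h2, h3⟩ := exists_trunc (by omega) hle hfix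
    intro j hj
    rw [← h2 j hj]
    exact caseB2 h0 h1 hk (by omega) hP R hne hR ((h2 0 (by omega)).trans hL0)
      ((h2 _ le_rfl).trans hLn) h3 j hj

end Pool.Agent.Helper60.LZ
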