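import Pool.Agent.Helper27.TW.Star
import Pool.Agent.Helper52.TW.Eta
import Pool.Agent.Helper52.TW.Eight
import Pool.Agent.Helper54.TW.Path

/-!
# All T-words: assembly

`Path` (helper54) and `star` (helper27) give helper52's `Star`, hence `StarW` and `freeS`.
-/

set_option autoImplicit false

namespace Pool.Agent.Helper60.LZ

open Complex Pool.Agent.Helper27.LZ Pool.Agent.Helper27.TW

/-- the scalar inequality -/
theorem starW : H52TW.StarW := by
  refine H52TW.starW_of_star ?_
  obtain ⟨l, ε, hp⟩ := Pool.Agent.Helper54.TW.exists_path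
  obtain ⟨a0, ha0, h⟩ := star hp H52TW.eta
  refine ⟨l, ?_, hp.mono, hp.lt, a0, ha0, ?_⟩
  · intro x hx
    have h1 := hp.mono 0 x hx
    rwa [hp.zero 0 (by norm_num)] at h1
  · intro a b ha haa hb hba r hr
    obtain ⟨η, hη⟩ : ∃ η, η = b / a := ⟨_, rfl⟩
    have hb' : b = η * a := by
      rw [hη]
      field_simp
    have hη0 : 0 ≤ η := by rw [hη]; positivity
    have hη3 : η ≤ √3 := by
      rw [hη, div_le_iff₀ ha]
      exact hba
    rw [hb']
    exact (h a ha haa η hη0 hη3 r hr).2

/-- **all words in the `T_r` with at least one `T_(n+1)`** -/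
theorem freeS_words {n : ℕ} {A : List ℕ} (hA : ∀ r ∈ A, r ≤ n + 1) (hn : n + 1 ∈ A) :
    H52TW.FreeS n (Pool.Agent.Helper69.LZ.wd A) :=
  H52TW.freeS starW hA hn

end Pool.Agent.Helper60.LZ
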